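import Pool.Agent.J4.H57.RP.Main

/-!
# The existential theory of the recursive path ordering with a partial precedence is undecidable

The answer to the question is NO: there are a finite signature, a partial precedence and a status function
such that the existential fragment of the first-order theory of the recursive path ordering is undecidable.

Main theorem.  Let `F` be a finite signature with a precedence and a status function, with two symbols `f`, `g`, which
are not constants, and a constant `e`, such that

* no symbol is smaller than `f` or `g` in the precedence, with the possible exception of `e`, and no symbol is
  smaller than `e` (so `f` and `g` are incomparable; all the other symbols, of any arities and statuses, may be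
  in any relation to each other and above or incomparable to `f`, `g`, `e`);
* `f` and `g` have the status `lex` (any arity), or are unary (any status).

Then the existential fragment is undecidable; moreover every recursively enumerable set of natural numbers is
many-one reducible to the set of the true existential sentences.

The smallest cases are the signatures of two unary symbols and a constant, where `f` and `g` are the
only incomparable pair.  If `f` and `g` are comparable, the precedence of such a signature is total and the fragment is
decidable (Jouannaud and Okada, Comon).

The proof.  The words over `{f, g}` are represented by the terms which are built with `t ↦ f(e, …, e, t)` and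
`t ↦ g(e, …, e, t)` from `e`.

1. (`Words`.) For these terms the recursive path ordering is the scattered subword ordering, because `f` and `g`
   are incomparable.
2. (`IsW`.) A term is a word if and only if it is not above or equal to one of finitely many ground terms, the terms
   `h(e, …, e)` for the other symbols `h`, and `f(e, …, e, g(e, …, e), e, …, e)` and the like.  For this it is used that
   nothing but `e` is smaller than `f`, `g`.
3. (`Comb`, `Mul`, `Dfn`.) With the prefixing of a letter and the subword ordering `⊑`, addition and multiplication of
   numbers `a ^ n` are defined by existential formulas:
   * the number of the letters `a` of `u` is the `n` with `a ^ n ⊑ u`, `a ^ (n + 1) ⋢ u`;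
   * `u` and `v`, with the same numbers of letters `a` and of letters `b`, ending with `b` and with `a`, with
     `u ⊑ a v` and `v ⊑ b u` are `(a b) ^ n` and `(b a) ^ n`; this gives the pairs `(a ^ n, b ^ n)`;
   * the words `w` with one letter `b` give the addition;
   * `w = b w'` is `(b a ^ n) ^ m`, where `m` is the number of its letters `b`, if and only if `w' b ⊑ a ^ n w` and
     `b ^ m a ^ n ⊑ w` (compare the blocks of letters `a`); the words `a ^ n w` and `w' b` are defined by the subword
     ordering and the numbers of the letters.
4. (`Main`.) The theorem of Davis, Putnam, Robinson and Matiyasevich (in the starting files `Helper844`).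

For the words over two letters with the subword ordering and constants, the undecidability of the existential
theory is a theorem of Halfon, Schnoebelen and Zetzsche (2017), with another proof.
-/

set_option autoImplicit false

namespace Pool.Agent.Results.MP_18cdfa_lc.Undecidable

open Pool.Agent.J4.H57.RP

/-- The symbols `f`, `g` are different and not constants, `e` is a constant, `f` and `g` have the status `lex` or are
unary, nothing except possibly `e` is smaller than `f` or `g`, and nothing is smaller than `e`. -/
structure TwoMinimal (F : Sig) (f g e : Fin F.n) : Prop where
  ne : f ≠ g
  arity_f : 0 < F.ar f
  arity_g : 0 < F.ar g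
  arity_e : F.ar e = 0
  status_f : F.mul f → F.ar f = 1
  status_g : F.mul g → F.ar g = 1
  min_f : ∀ h, F.prec f h → h = e
  min_g : ∀ h, F.prec g h → h = e
  min_e : ∀ h, ¬ F.prec e h

/-- the structure of the proof -/
def good {F : Sig} {f g e : Fin F.n} (h : TwoMinimal F f g e) : Good F where
  s := fun c => if c = true then f else g
  e := e
  ne := by simpa using h.ne
  pos := fun c => by cases c <;> simp [h.arity_f, h.arity_g]
  ar_e := h.arity_e
  mul := fun c => by
    cases c
    · simpa using h.status_g
    · simpa using h.status_f
  min := fun c => by
    cases c
    · simpa using h.min_g
    · simpa using h.min_f
  min_e := h.min_e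

/-- two unary symbols and a constant; the two unary symbols are the only incomparable pair -/
def small : Sig where
  n := 3
  ar := fun x => if x = 0 then 0 else 1
  const := ⟨0, rfl⟩
  prec := fun x y => x ≠ 0 ∧ y = 0
  irrefl := fun x h => h.1 h.2
  trans := fun x y z h h' => absurd h.2 h'.1
  mul := fun _ => False

/-- **Main theorem.**
1. The codes of formulas are unique.
2. If the signature `F` has symbols `f`, `g`, `e` with the properties above, then every recursively enumerable set
of natural numbers is many-one reducible to the set of the true existential sentences, and the
existential fragment is undecidable.
3. There are a finite signature, a precedence which is not total and a status function with undecidable existential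
fragment. -/
theorem result :
    (∀ F : Sig, Function.Injective (Fml.code (F := F))) ∧
    (∀ (F : Sig) (f g e : Fin F.n), TwoMinimal F f g e →
      (∀ p : ℕ → Prop, REPred p →
        ∃ Φ : ℕ → Fml F ℕ, Computable (fun n => (Φ n).code) ∧ ∀ n, p n ↔ (Φ n).IsTrue) ∧
      ¬ ExDecidable F) ∧
    ∃ F : Sig, ¬ F.Total ∧ ¬ ExDecidable F := by
  have main : ∀ (F : Sig) (f g e : Fin F.n), TwoMinimal F f g e →
      (∀ p : ℕ → Prop, REPred p →
        ∃ Φ : ℕ → Fml F ℕ, Computable (fun n => (Φ n).code) ∧ ∀ n, p n ↔ (Φ n).IsTrue) ∧
      ¬ ExDecidable F := by
    intro F f g e h
    have h1 : ∀ p : ℕ → Prop, REPred p →
        ∃ Φ : ℕ → Fml F ℕ, Computable (fun n => (Φ n).code) ∧ ∀ n, p n ↔ (Φ n).IsTrue :=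
      fun p hp => (good h).hard hp
    exact ⟨h1, undecidable h1⟩
  refine ⟨code_injective, main, small, ?_, ?_⟩
  · intro h
    rcases h (1 : Fin 3) (2 : Fin 3) (by decide) with h1 | h1
    · exact absurd h1.2 (by decide)
    · exact absurd h1.2 (by decide)
  · refine (main small (1 : Fin 3) (2 : Fin 3) (0 : Fin 3) ?_).2
    exact
      { ne := by decide
        arity_f := by show 0 < (if (1 : Fin 3) = 0 then 0 else 1); decide
        arity_g := by show 0 < (if (2 : Fin 3) = 0 then 0 else 1); decide
        arity_e := rfl
        status_f := fun h => h.elim
        status_g := fun h => h.elim
        min_f := fun h h' => h'.2
        min_g := fun h h' => h'.2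
        min_e := fun h h' => h'.1 rfl }

end Pool.Agent.Results.MP_18cdfa_lc.Undecidable
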